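import Mathlib

namespace Pool.Agent.H.MP_61ce55_lc
open Finset

noncomputable def top {d : ℕ} (k : ℕ) (x : Fin d → ℝ) : ℝ :=
  ∑ l : Fin d, if l.val < k then x (Tuple.sort x l.rev) else 0

theorem anti {d : ℕ} (x : Fin d → ℝ) : Antitone (fun l : Fin d => x (Tuple.sort x l.rev)) := by
  intro a b hab
  exact Tuple.monotone_sort x (Fin.rev_le_rev.mpr hab)

theorem top_eq {d : ℕ} (k : ℕ) (x : Fin d → ℝ) :
    ∃ G : Finset (Fin d), G.card ≤ k ∧ top k x = ∑ i ∈ G, x i := by
  classical
  have hinj : Function.Injective (fun l : Fin d => Tuple.sort x l.rev) :=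
    fun a b h => Fin.rev_injective ((Tuple.sort x).injective h)
  refine ⟨(univ.filter (fun l : Fin d => l.val < k)).image (fun l => Tuple.sort x l.rev), ?_, ?_⟩
  · refine card_image_le.trans ?_
    have : (univ.filter (fun l : Fin d => l.val < k)).card ≤ (range k).card := by
      apply card_le_card_of_injOn (fun l => l.val)
      · intro l hl; simpa using hl
      · intro a _ b _ h; exact Fin.ext h
    simpa using this
  · rw [sum_image (fun a _ b _ h => hinj h), sum_filter]; rfl

theorem anti_sum {d : ℕ} (f : Fin d → ℝ) (hf : Antitone f) (h0 : ∀ l, 0 ≤ f l) (k : ℕ)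
    (H : Finset (Fin d)) (hH : H.card ≤ k) :
    ∑ l ∈ H, f l ≤ ∑ l ∈ univ.filter (fun l : Fin d => l.val < k), f l := by
  classical
  set L := univ.filter (fun l : Fin d => l.val < k) with hL
  by_cases hk : k < d
  · have hc : L.card = k := by
      have : L = (range k).attachFin (fun m hm => (mem_range.mp hm).trans hk) := by
        ext l; simp [hL]
      rw [this]; simp
    have h1 : ∑ l ∈ H \ L, f l ≤ (H \ L).card • f ⟨k, hk⟩ := by
      apply sum_le_card_nsmul
      intro l hl
      have : ¬ l.val < k := by simpa [hL] using (mem_sdiff.mp hl).2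
      exact hf (by rw [Fin.le_def]; simpa using this)
    have h2 : (L \ H).card • f ⟨k, hk⟩ ≤ ∑ l ∈ L \ H, f l := by
      apply card_nsmul_le_sum
      intro l hl
      have : l.val < k := by simpa [hL] using (mem_sdiff.mp hl).1
      exact hf (by rw [Fin.le_def]; exact this.le)
    have h3 : (H \ L).card ≤ (L \ H).card := by
      have a1 := card_sdiff_add_card_inter H L
      have a2 := card_sdiff_add_card_inter L H
      rw [inter_comm] at a2
      omega
    have h4 : (H \ L).card • f ⟨k, hk⟩ ≤ (L \ H).card • f ⟨k, hk⟩ :=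
      nsmul_le_nsmul_left (h0 _) h3
    have e1 := sum_sdiff_sub_sum_sdiff (s₁ := H) (s₂ := L) (f := f)
    linarith
  · apply sum_le_sum_of_subset_of_nonneg
    · intro l _; simp [hL]; omega
    · intro l _ _; exact h0 l

theorem le_top {d : ℕ} (k : ℕ) (x : Fin d → ℝ) (hx : ∀ i, 0 ≤ x i) (G : Finset (Fin d))
    (hG : G.card ≤ k) : ∑ i ∈ G, x i ≤ top k x := by
  classical
  let e : Fin d ≃ Fin d := Fin.revPerm.trans (Tuple.sort x)
  have h := anti_sum (fun l : Fin d => x (Tuple.sort x l.rev)) (anti x) (fun l => hx _) k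
    (G.map e.symm.toEmbedding) (by simpa using hG)
  rw [sum_map, sum_filter] at h
  refine le_trans (le_of_eq ?_) h
  apply sum_congr rfl
  intro i _
  have : e (e.symm i) = i := e.apply_symm_apply i
  exact congrArg x this.symm

/-- counting -/
theorem count {ι : Type} (X : Finset ι) (t : ℕ) (c : ι → Fin (4 * t) → Bool)
    (h : ∀ S : Fin (4 * t) → Bool, ∃ x ∈ X, (univ.filter (fun r => S r = c x r)).card ≤ t) :
    (3 / 2 : ℝ) ^ t ≤ X.card := by
  classical
  have h1 : ∀ x, ∑ S : Fin (4 * t) → Bool, ∏ r, (if S r = c x r then (1 / 2 : ℝ) else 1)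
      = (3 / 2) ^ (4 * t) := by
    intro x
    have := Finset.prod_univ_sum (fun _ : Fin (4 * t) => (univ : Finset Bool))
      (fun r b => if b = c x r then (1 / 2 : ℝ) else 1)
    rw [Fintype.piFinset_univ] at this
    rw [← this]
    have h2 : ∀ r, ∑ b : Bool, (if b = c x r then (1 / 2 : ℝ) else 1) = 3 / 2 := by
      intro r; cases c x r <;> simp <;> norm_num
    simp only [h2]; rw [prod_const, card_univ, Fintype.card_fin]
  have h2 : ∀ S : Fin (4 * t) → Bool, (1 / 2 : ℝ) ^ t ≤
      ∑ x ∈ X, ∏ r, (if S r = c x r then (1 / 2 : ℝ) else 1) := by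
    intro S
    obtain ⟨x, hx, hc⟩ := h S
    refine le_trans ?_ (single_le_sum (f := fun x => ∏ r, (if S r = c x r then (1 / 2 : ℝ) else 1))
      (fun y _ => prod_nonneg (fun r _ => by split_ifs <;> norm_num)) hx)
    beta_reduce
    rw [prod_ite, prod_const, prod_const, one_pow, mul_one]
    exact pow_le_pow_of_le_one (by norm_num) (by norm_num) hc
  have h3 := sum_le_sum (fun S (_ : S ∈ (univ : Finset (Fin (4 * t) → Bool))) => h2 S)
  rw [sum_comm] at h3
  simp only [h1, sum_const, card_univ, Fintype.card_fun, Fintype.card_bool, Fintype.card_fin,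
    nsmul_eq_mul] at h3
  push_cast at h3
  rw [pow_mul, pow_mul, ← mul_pow] at h3
  have h4 : (0 : ℝ) < ((3 / 2) ^ 4) ^ t := by positivity
  have h5 : (3 / 2 : ℝ) ^ t * ((3 / 2) ^ 4) ^ t ≤ (2 ^ 4 * (1 / 2)) ^ t := by
    rw [← mul_pow]; exact pow_le_pow_left₀ (by norm_num) (by norm_num) t
  exact le_of_mul_le_mul_right (h5.trans h3) h4


/-- machines, jobs, scales -/
abbrev Mc (R A : ℕ) := Fin R × Bool × Fin (A ^ (4 * R))
abbrev Jb (R A : ℕ) := Fin R × Fin (A ^ (4 * R))

def sc {R : ℕ} (r : Fin R) (b : Bool) : ℕ := 2 * r.val + b.toNat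

theorem sc_lt {R : ℕ} (r : Fin R) (b : Bool) : sc r b + 1 ≤ 2 * R := by
  have := r.isLt; have := b.toNat_le; unfold sc; omega

noncomputable def pt (R A : ℕ) (m : Mc R A) (j : Jb R A) : ℝ :=
  if m.1 = j.1 ∧ m.2.2.val < A ^ (2 * sc m.1 m.2.1) then
    (A : ℝ) ^ (sc m.1 m.2.1 + 1) / (A : ℝ) ^ (4 * R) else (A : ℝ) ^ (2 * R)

theorem pt_nonneg (R A : ℕ) (m : Mc R A) (j : Jb R A) : 0 ≤ pt R A m j := by
  unfold pt; split_ifs <;> positivity

theorem lower (R A : ℕ) (hA : 1 ≤ A) (φ : Jb R A → Mc R A) (r : Fin R) :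
    ∃ b : Bool, ∃ G : Finset (Mc R A), G.card ≤ A ^ (2 * sc r b) ∧
      (A : ℝ) ^ (sc r b + 1) / 2 ≤ ∑ j, if φ j ∈ G then pt R A (φ j) j else 0 := by
  classical
  have hA' : (1 : ℝ) ≤ A := by exact_mod_cast hA
  by_cases h : ∀ u, (φ (r, u)).1 = r ∧ (φ (r, u)).2.2.val < A ^ (2 * sc (φ (r, u)).1 (φ (r, u)).2.1)
  · have hsum : (univ.filter (fun u => (φ (r, u)).2.1 = true)).card +
        (univ.filter (fun u => (φ (r, u)).2.1 = false)).card = A ^ (4 * R) := by
      have := card_filter_add_card_filter_not (s := (univ : Finset (Fin (A ^ (4 * R)))))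
        (fun u => (φ (r, u)).2.1 = true)
      simpa using this
    have hb : ∃ b : Bool, A ^ (4 * R) ≤ 2 * (univ.filter (fun u => (φ (r, u)).2.1 = b)).card := by
      by_contra hc
      push Not at hc
      have := hc true; have := hc false; omega
    obtain ⟨b, hb⟩ := hb
    refine ⟨b, univ.filter (fun m : Mc R A => m.1 = r ∧ m.2.1 = b ∧ m.2.2.val < A ^ (2 * sc r b)),
      ?_, ?_⟩
    · rw [← card_range (A ^ (2 * sc r b))]
      apply card_le_card_of_injOn (fun m => m.2.2.val)
      · intro m hm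
        simp only [coe_filter, mem_univ, true_and, Set.mem_setOf_eq] at hm
        simpa using hm.2.2
      · intro m hm m' hm' e
        simp only [coe_filter, mem_univ, true_and, Set.mem_setOf_eq] at hm hm'
        exact Prod.ext (hm.1.trans hm'.1.symm) (Prod.ext (hm.2.1.trans hm'.2.1.symm) (Fin.ext e))
    · rw [Fintype.sum_prod_type]
      refine le_trans ?_ (single_le_sum (f := fun r' : Fin R => ∑ u, if φ (r', u) ∈
        univ.filter (fun m : Mc R A => m.1 = r ∧ m.2.1 = b ∧ m.2.2.val < A ^ (2 * sc r b))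
          then pt R A (φ (r', u)) (r', u) else 0)
        (fun r' _ => sum_nonneg (fun u _ => by split_ifs; exacts [pt_nonneg _ _ _ _, le_rfl]))
        (mem_univ r))
      beta_reduce
      have e : ∀ u, (if φ (r, u) ∈
        univ.filter (fun m : Mc R A => m.1 = r ∧ m.2.1 = b ∧ m.2.2.val < A ^ (2 * sc r b))
          then pt R A (φ (r, u)) (r, u) else 0) =
          if (φ (r, u)).2.1 = b then (A : ℝ) ^ (sc r b + 1) / (A : ℝ) ^ (4 * R) else 0 := by
        intro u
        obtain ⟨h1, h2⟩ := h u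
        by_cases hb' : (φ (r, u)).2.1 = b
        · rw [if_pos hb', if_pos]
          · unfold pt; rw [if_pos ⟨h1, h2⟩, h1, hb']
          · rw [h1, hb'] at h2; simp [h1, hb', h2]
        · rw [if_neg hb', if_neg]; simp [hb']
      simp only [e]
      rw [← sum_filter, sum_const, nsmul_eq_mul]
      have hK : (0 : ℝ) < (A : ℝ) ^ (4 * R) := by positivity
      have hb2 : (A : ℝ) ^ (4 * R) ≤
          2 * ((univ.filter (fun u => (φ (r, u)).2.1 = b)).card : ℝ) := by exact_mod_cast hb
      have hP : (0 : ℝ) ≤ (A : ℝ) ^ (sc r b + 1) := by positivity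
      rw [← mul_div_assoc, le_div_iff₀ hK]
      nlinarith
  · push Not at h
    obtain ⟨u, hu⟩ := h
    refine ⟨false, {φ (r, u)}, by simpa using Nat.one_le_pow _ _ hA, ?_⟩
    refine le_trans ?_ (single_le_sum (f := fun j => if φ j ∈ ({φ (r, u)} : Finset (Mc R A))
          then pt R A (φ j) j else 0)
        (fun j _ => by split_ifs; exacts [pt_nonneg _ _ _ _, le_rfl]) (mem_univ (r, u)))
    beta_reduce
    rw [if_pos (mem_singleton_self _)]
    unfold pt
    rw [if_neg (fun hh => absurd hh.2 (not_lt.mpr (hu hh.1)))]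
    have := pow_le_pow_right₀ hA' (sc_lt r false)
    have hP : (0 : ℝ) ≤ (A : ℝ) ^ (sc r false + 1) := by positivity
    linarith

theorem div_lt {R A : ℕ} (hA : 1 ≤ A) (r : Fin R) (b : Bool) (u : Fin (A ^ (4 * R))) :
    u.val / A ^ (4 * R - 2 * sc r b) < A ^ (2 * sc r b) := by
  have := sc_lt r b
  rw [Nat.div_lt_iff_lt_mul (Nat.pow_pos hA), ← pow_add]
  have e : 2 * sc r b + (4 * R - 2 * sc r b) = 4 * R := by omega
  rw [e]; exact u.isLt

def sched (R A : ℕ) (t : Fin R → Bool) (j : Jb R A) : Mc R A :=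
  (j.1, t j.1, ⟨j.2.val / A ^ (4 * R - 2 * sc j.1 (t j.1)),
    lt_of_le_of_lt (Nat.div_le_self _ _) j.2.isLt⟩)

theorem upper (R A : ℕ) (hA : 1 ≤ A) (t : Fin R → Bool) (s : ℕ) (hs : ∀ r, sc r (t r) ≠ s)
    (G : Finset (Mc R A)) (hG : G.card ≤ A ^ (2 * s)) :
    ∑ j, (if sched R A t j ∈ G then pt R A (sched R A t j) j else 0) ≤ R * (A : ℝ) ^ s := by
  classical
  have hA' : (1 : ℝ) ≤ A := by exact_mod_cast hA
  rw [Fintype.sum_prod_type]
  have : ∀ r : Fin R, ∑ u, (if sched R A t (r, u) ∈ G then pt R A (sched R A t (r, u)) (r, u) else 0)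
      ≤ (A : ℝ) ^ s := by
    intro r
    have e : ∀ u, pt R A (sched R A t (r, u)) (r, u) =
        (A : ℝ) ^ (sc r (t r) + 1) / (A : ℝ) ^ (4 * R) := by
      intro u
      unfold pt
      rw [if_pos ⟨rfl, div_lt hA r (t r) u⟩]; rfl
    simp only [e]
    rw [← sum_filter, sum_const, nsmul_eq_mul]
    have hK : (0 : ℝ) < (A : ℝ) ^ (4 * R) := by positivity
    rw [← mul_div_assoc, div_le_iff₀ hK]
    have hlt := sc_lt r (t r)
    rcases lt_or_gt_of_ne (hs r) with h | h
    · have c1 : (univ.filter (fun u => sched R A t (r, u) ∈ G)).card ≤ A ^ (4 * R) := by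
        simpa using card_le_univ (univ.filter (fun u => sched R A t (r, u) ∈ G))
      have c2 : ((univ.filter (fun u => sched R A t (r, u) ∈ G)).card : ℝ) ≤ (A : ℝ) ^ (4 * R) := by
        exact_mod_cast c1
      have c3 : (A : ℝ) ^ (sc r (t r) + 1) ≤ (A : ℝ) ^ s := pow_le_pow_right₀ hA' h
      rw [mul_comm ((A : ℝ) ^ s)]
      exact mul_le_mul c2 c3 (by positivity) (by positivity)
    · have c1 : (univ.filter (fun u => sched R A t (r, u) ∈ G)).card ≤
          A ^ (4 * R - 2 * sc r (t r)) * G.card := by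
        apply card_le_mul_card_image_of_maps_to (f := fun u => sched R A t (r, u))
        · intro u hu; simpa using hu
        · intro m _
          rw [← card_range (A ^ (4 * R - 2 * sc r (t r)))]
          apply card_le_card_of_injOn (fun u => u.val % A ^ (4 * R - 2 * sc r (t r)))
          · intro u _
            simpa using Nat.mod_lt _ (Nat.pow_pos hA)
          · intro u hu u' hu' e
            have h1 := (mem_filter.mp (mem_coe.mp hu)).2
            have h2 := (mem_filter.mp (mem_coe.mp hu')).2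
            have h3 := congrArg (fun m : Mc R A => m.2.2.val) (h1.trans h2.symm)
            simp only [sched] at h3 e
            apply Fin.ext
            rw [← Nat.div_add_mod u.val (A ^ (4 * R - 2 * sc r (t r))),
              ← Nat.div_add_mod u'.val (A ^ (4 * R - 2 * sc r (t r))), h3, e]
      have c2 : ((univ.filter (fun u => sched R A t (r, u) ∈ G)).card : ℝ) ≤
          (A : ℝ) ^ (4 * R - 2 * sc r (t r)) * (A : ℝ) ^ (2 * s) := by
        exact_mod_cast c1.trans (Nat.mul_le_mul_left _ hG)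
      refine (mul_le_mul_of_nonneg_right c2 (by positivity)).trans ?_
      rw [← pow_add, ← pow_add, ← pow_add]
      exact pow_le_pow_right₀ hA' (by omega)
  refine (sum_le_sum (fun r _ => this r)).trans ?_
  simp

end Pool.Agent.H.MP_61ce55_lc
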